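import Mathlib

set_option autoImplicit false

namespace Pool.Agent.Results.MP_6ac782_lc.No

open Filter Set

/-- the sum of two ultrafilters: `A` belongs to it iff for `u`-most `x`, for `v`-most `y`,
`x + y ∈ A` -/
def add (u v : Ultrafilter ℤ) : Ultrafilter ℤ := u.bind fun x => v.map fun y => x + y

def neg (u : Ultrafilter ℤ) : Ultrafilter ℤ := u.map fun x => -x

def Up (A : Set ℤ) : Prop := ∀ a ∈ A, ∀ b, a ∣ b → b ∈ A

def Dv (u v : Ultrafilter ℤ) : Prop := ∀ A, Up A → A ∈ u → A ∈ v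

def Cong (w u v : Ultrafilter ℤ) : Prop := Dv w (add u (neg v))

lemma mem_sub {u v : Ultrafilter ℤ} {A : Set ℤ} :
    A ∈ add u (neg v) ↔ ∀ᶠ x in (u : Filter ℤ), ∀ᶠ y in (v : Filter ℤ), x - y ∈ A := by
  simp only [sub_eq_add_neg]; exact Filter.mem_bind'

lemma gaps (G : ℕ → ℕ) : ∃ c : ℕ → Bool, ∀ ε n, ∃ N ≥ n, ∀ q, N < q → q ≤ G N → c q ≠ ε := by
  let s : ℕ → ℕ := fun j => (fun N => N + G N + 1)^[j] 0
  have hs : ∀ j, s (j + 1) = s j + G (s j) + 1 := fun j => Function.iterate_succ_apply' _ _ _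
  have hm : StrictMono s := strictMono_nat_of_lt_succ fun j => by rw [hs]; omega
  have he : ∀ q, ∃ j, q ≤ s (j + 1) := fun q => ⟨q, (hm.le_apply (x := q)).trans (hm.monotone q.le_succ)⟩
  refine ⟨fun q => decide (Nat.find (he q) % 2 = 0), fun ε n => ?_⟩
  have : ∀ j q, s j < q → q ≤ G (s j) → Nat.find (he q) = j := fun j q h1 h2 =>
    (Nat.find_eq_iff _).2 ⟨by rw [hs]; omega, fun i hi => not_le.2 ((hm.monotone hi).trans_lt h1)⟩
  cases ε
  · exact ⟨s (2 * n), le_trans (by omega) hm.le_apply, fun q h1 h2 => by simp [this _ q h1 h2]⟩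
  · exact ⟨s (2 * n + 1), le_trans (by omega) hm.le_apply, fun q h1 h2 => by
      simp [this _ q h1 h2, Nat.add_mod]⟩

lemma ultra {I : Type} [Nonempty I] (T : I → Set ℤ) (h1 : ∀ i j, ∃ k, T k ⊆ T i ∩ T j)
    (h2 : ∀ i, (T i).Nonempty) : ∃ u : Ultrafilter ℤ, ∀ i, T i ∈ u := by
  have : (⨅ i, 𝓟 (T i)).NeBot := iInf_neBot_of_directed' (fun i j => by
    obtain ⟨k, hk⟩ := h1 i j
    exact ⟨k, principal_mono.2 (hk.trans inter_subset_left),
      principal_mono.2 (hk.trans inter_subset_right)⟩) fun i => principal_neBot_iff.2 (h2 i)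
  exact ⟨Ultrafilter.of _, fun i => Ultrafilter.of_le _ (mem_iInf_of_mem i (mem_principal_self _))⟩

lemma not_symm (w : Ultrafilter ℤ) (h0 : w ≠ pure 0) (hw : {n | {x | n ∣ x} ∈ w} ∉ w) :
    ∃ u v, Cong w u v ∧ ¬ Cong w v u := by
  classical
  let dv : ℕ → Prop := fun n => {x : ℤ | (n : ℤ) ∣ x} ∈ w
  have hz : ∀ᶠ x in (w : Filter ℤ), x ≠ 0 := Ultrafilter.eventually_not.2 fun h =>
    h0 (Ultrafilter.eq_of_le (le_pure_iff.2 h))
  have gen : ∀ n : ℕ, ∀ᶠ x in (w : Filter ℤ), ∀ q ∈ Finset.range (n + 1), (dv q ↔ (q : ℤ) ∣ x) := by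
    intro n
    rw [eventually_all_finset]
    intro q _
    by_cases h : dv q
    · exact mem_of_superset h fun x hx => by simpa [h] using hx
    · exact mem_of_superset (Ultrafilter.compl_mem_iff_notMem.2 h) fun x hx => by simpa [h] using hx
  let κ : ℕ → ℕ := fun p => sInf {k | ¬ dv (p ^ (k + 1))}
  let q : ℕ → ℕ := fun p => p ^ (κ p + 1)
  let F : ℕ → ℕ := fun N => ∏ p ∈ (Finset.range (N + 1)).filter Nat.Prime, p ^ N
  obtain ⟨c, hc⟩ := gaps fun N => (N + 2) * F N + N.factorial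
  obtain ⟨ε, hε⟩ : ∃ ε, {x : ℤ | ∃ p, (p.Prime ∧ ¬ dv (q p) ∧ c (q p) = ε) ∧ (q p : ℤ) ∣ x} ∈ w := by
    have : ∀ᶠ x in (w : Filter ℤ), ∃ ε ∈ (univ : Set Bool),
        ∃ p, (p.Prime ∧ ¬ dv (q p) ∧ c (q p) = ε) ∧ (q p : ℤ) ∣ x := by
      filter_upwards [hz, Ultrafilter.compl_mem_iff_notMem.2 hw] with x h1 h2
      by_contra hn
      refine h2 (mem_of_superset (gen x.natAbs) fun y hy => ?_)
      refine Int.natAbs_dvd_natAbs.1 ((Nat.dvd_iff_prime_pow_dvd_dvd _ _).2 fun p k hp hk => ?_)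
      refine Int.natCast_dvd.1 ((hy _ (Finset.mem_range_succ_iff.2
        (Nat.le_of_dvd (Int.natAbs_pos.2 h1) hk))).1 (by_contra fun hd => hn ?_))
      obtain _ | k := k
      · exact absurd (mem_of_superset univ_mem fun x _ => by simp) hd
      · exact ⟨_, trivial, p, ⟨hp, Nat.sInf_mem (s := {k | ¬ dv (p ^ (k + 1))}) ⟨k, hd⟩, rfl⟩,
          Int.natCast_dvd.2 ((pow_dvd_pow _ (Nat.succ_le_succ (Nat.sInf_le hd))).trans hk)⟩
    obtain ⟨ε, -, h⟩ := (Ultrafilter.eventually_exists_mem_iff finite_univ).1 this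
    exact ⟨ε, h⟩
  set A : ℕ → Prop := fun p => p.Prime ∧ ¬ dv (q p) ∧ c (q p) = ε
  have gap : ∀ n, ∃ N ≥ n, ∀ p, A p → q p ≤ N ∨ (N + 2) * F N + N.factorial < q p := fun n => by
    obtain ⟨N, h1, h2⟩ := hc ε n
    exact ⟨N, h1, fun p hp => by_contra fun h =>
      h2 _ (not_le.1 (not_or.1 h).1) (not_lt.1 (not_or.1 h).2) hp.2.2⟩
  have lt : ∀ p, A p → p ^ κ p < q p := fun p hp => Nat.pow_lt_pow_right hp.1.one_lt (Nat.lt_succ_self _)
  let Y : Set ℤ := {y | 0 < y ∧ ∀ p, A p → ¬ (q p : ℤ) ∣ y - (p ^ κ p : ℕ)}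
  obtain ⟨v, hv⟩ := ultra (fun n : ℕ+ => Y ∩ {y | ((n : ℕ) : ℤ) ∣ y})
    (fun i j => ⟨i * j, fun y hy => by
      have := hy.2
      simp only [PNat.mul_coe, Nat.cast_mul, mem_ofPred_eq] at this
      exact ⟨⟨hy.1, dvd_of_mul_right_dvd this⟩, hy.1, dvd_of_mul_left_dvd this⟩⟩) (fun n => by
    obtain ⟨N, h1, h2⟩ := gap (n + 3)
    refine ⟨N.factorial, ⟨by exact_mod_cast N.factorial_pos, fun p hp h => ?_⟩,
      Int.natCast_dvd_natCast.2 (Nat.dvd_factorial n.pos (by omega))⟩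
    have := lt p hp
    have hp' := pow_pos hp.1.pos (κ p)
    rcases h2 p hp with h3 | h3
    · have := Nat.le_of_dvd hp' (Int.natCast_dvd_natCast.1 ((dvd_sub_right
        (Int.natCast_dvd_natCast.2 (Nat.dvd_factorial (by omega) h3))).1 h))
      omega
    · have := N.factorial_pos
      have e : N.factorial = p ^ κ p := by
        have := Int.eq_zero_of_abs_lt_dvd h (abs_lt.2 ⟨by omega, by omega⟩)
        omega
      have a : ∀ r : ℕ, r.Prime → r ≤ 3 → r = p := fun r hr h => (Nat.prime_dvd_prime_iff_eq hr hp.1).1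
        (hr.dvd_of_dvd_pow (e ▸ Nat.dvd_factorial hr.pos (by omega)))
      have := (a 2 (by norm_num) (by norm_num)).trans (a 3 (by norm_num) (by norm_num)).symm
      omega)
  have : Nonempty {B : Set ℤ // Up B ∧ B ∈ w} := ⟨⟨univ, fun _ _ _ _ => trivial, univ_mem⟩⟩
  obtain ⟨u, hu⟩ := ultra (I := {B : Set ℤ // Up B ∧ B ∈ w} × ℕ) (fun i => {x | x ∈ i.1.1 ∧ 0 < x ∧
      ∀ y ∈ Y, y ≤ i.2 → ∀ p, A p → ¬ (q p : ℤ) ∣ y - x})
    (fun i j => ⟨(⟨i.1.1 ∩ j.1.1, fun a ha b h => ⟨i.1.2.1 a ha.1 b h, j.1.2.1 a ha.2 b h⟩,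
      inter_mem i.1.2.2 j.1.2.2⟩, i.2 + j.2), fun x ⟨h1, h2, h3⟩ =>
      ⟨⟨h1.1, h2, fun y a b => h3 y a (by push_cast; omega)⟩,
        h1.2, h2, fun y a b => h3 y a (by push_cast; omega)⟩⟩) (fun ⟨⟨B, hB, hBw⟩, n⟩ => by
    obtain ⟨b, b1, b2, b3⟩ := ((show ∀ᶠ x in (w : Filter ℤ), x ∈ B from hBw).and
      (hz.and (gen n))).exists
    obtain ⟨N, h1, h2⟩ := gap (n + b.natAbs)
    let a : ℕ → ℕ := fun p => if A p ∧ q p ≤ n then p ^ κ p else 0
    have c1 : ∀ p ∈ (Finset.range (N + 1)).filter Nat.Prime, p ^ N ≠ 0 := fun p hp =>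
      pow_ne_zero _ (Finset.mem_filter.1 hp).2.ne_zero
    have c2 : Set.Pairwise ((Finset.range (N + 1)).filter Nat.Prime : Set ℕ)
        (Function.onFun Nat.Coprime fun p => p ^ N) := fun p hp r hr h => Nat.Coprime.pow _ _
      ((Nat.coprime_primes (Finset.mem_filter.1 hp).2 (Finset.mem_filter.1 hr).2).2 h)
    obtain ⟨x, hx, c3⟩ : ∃ x, (∀ p ∈ (Finset.range (N + 1)).filter Nat.Prime,
        x ≡ a p [MOD p ^ N]) ∧ x < F N :=
      ⟨_, (Nat.chineseRemainderOfFinset a _ _ c1 c2).2,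
        Nat.chineseRemainderOfFinset_lt_prod a _ c1 c2⟩
    have c4 : 0 < F N := Finset.prod_pos fun p hp => Nat.pos_of_ne_zero (c1 p hp)
    have key : ∀ p k : ℕ, p.Prime → p ^ (k + 1) ≤ N → x + (n + 1) * F N ≡ a p [MOD p ^ (k + 1)] := by
      intro p k hp hk
      have m : p ∈ (Finset.range (N + 1)).filter Nat.Prime := Finset.mem_filter.2
        ⟨Finset.mem_range_succ_iff.2 ((Nat.le_self_pow (by simp) p).trans hk), hp⟩
      refine Nat.ModEq.of_dvd (pow_dvd_pow p (((Nat.lt_pow_self hp.one_lt).le).trans hk)) ?_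
      simpa using (hx p m).add ((Nat.modEq_zero_iff_dvd).2
        ((Finset.dvd_prod_of_mem (fun p => p ^ N) m).mul_left (n + 1)))
    have c5 : n < x + (n + 1) * F N := by nlinarith
    have c6 : x + (n + 1) * F N ≤ (N + 2) * F N := by
      have := Nat.mul_le_mul_right (F N) (show n ≤ N by omega)
      nlinarith
    generalize x + (n + 1) * F N = z at key c5 c6
    refine ⟨z, hB b b1 _ ?_, by omega, fun y hy hn p hp h => ?_⟩
    · refine Int.natAbs_dvd.1 (Int.natCast_dvd_natCast.2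
        ((Nat.dvd_iff_prime_pow_dvd_dvd _ _).2 fun p k hp hk => ?_))
      obtain _ | k := k
      · simp
      have := Nat.le_of_dvd (Int.natAbs_pos.2 b2) hk
      refine ((key p k hp (by omega)).dvd_iff dvd_rfl).2 ?_
      by_cases h : A p ∧ q p ≤ n
      · simp only [a, if_pos h]
        refine pow_dvd_pow _ (by_contra fun h' => h.1.2.1 ?_)
        exact (b3 _ (Finset.mem_range_succ_iff.2 h.2)).2
          (Int.natCast_dvd.2 ((pow_dvd_pow _ (by omega)).trans hk))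
      · simp [a, h]
    · have y0 := hy.1
      simp only at hn
      rcases h2 p hp with h3 | h3
      · have k1 := dvd_sub h (key p _ hp.1 h3).dvd
        by_cases h4 : q p ≤ n
        · refine hy.2 p hp ?_
          simpa [a, hp, h4] using k1
        · have : (q p : ℤ) ∣ y := by simpa [a, h4] using k1
          have := Int.le_of_dvd y0 this
          omega
      · have := Int.eq_zero_of_abs_lt_dvd h (abs_lt.2 ⟨by omega, by omega⟩)
        omega)
  refine ⟨u, v, fun B hB hBw => mem_sub.2 ?_, fun h => ?_⟩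
  · filter_upwards [hu (⟨B, hB, hBw⟩, 0)] with x hx
    filter_upwards [hv ⟨x.natAbs, Int.natAbs_pos.2 hx.2.1.ne'⟩] with y hy
    exact hB x hx.1 _ (dvd_sub dvd_rfl (Int.natAbs_dvd.1 hy.2))
  · obtain ⟨y, h1, h2⟩ := ((mem_sub.1 (h {x : ℤ | ∃ p, A p ∧ (q p : ℤ) ∣ x}
      (fun a ⟨p, h1, h2⟩ b h3 => ⟨p, h1, h2.trans h3⟩) hε)).and (hv 1)).exists
    obtain ⟨x, ⟨p, h3, h4⟩, h5⟩ := (h1.and (hu (⟨univ, fun _ _ _ _ => trivial, univ_mem⟩,
      y.natAbs))).exists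
    exact h5.2.2 y h2.1 (by simpa using le_abs_self y) p h3 h4

theorem result (w : Ultrafilter ℤ) (h0 : w ≠ pure 0) (hs : ∀ u v, Cong w u v → Cong w v u) :
    ∀ u v t, Cong w u v → Cong w v t → Cong w u t := by
  by_cases hw : {n | {x | n ∣ x} ∈ w} ∈ w
  · intro u v t h1 h2 A hA hAw
    obtain ⟨n, a, b⟩ := Ultrafilter.nonempty_of_mem (inter_mem hAw hw)
    have hn : Up {x | n ∣ x} := fun a h1 b h2 => dvd_trans h1 h2
    refine mem_sub.2 ((mem_sub.1 (h1 _ hn b)).mono fun x hx => ?_)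
    obtain ⟨y, c, d⟩ := (hx.and (mem_sub.1 (h2 _ hn b))).exists
    exact d.mono fun z hz => hA n a _ (by simpa using dvd_add c hz)
  · obtain ⟨u, v, h1, h2⟩ := not_symm w h0 hw
    exact absurd (hs u v h1) h2

end Pool.Agent.Results.MP_6ac782_lc.No
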